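import Pool.Agent.Helper15.ABC.Class
import Pool.Agent.Helper15.Murre.BC

/-!
# Base change to the function field of a variety
-/

open CategoryTheory MonoidalCategory Limits
open Pool.Agent.Helper15.Murre

universe w v' u' v u

namespace Pool.Agent.Helper15.FF

variable {C : Type u} [Category.{v} C] [Preadditive C] [Linear ℚ C]
  [MonoidalCategory C] [SymmetricCategory C] [RigidCategory C] {F : Type w} [Field F]
variable {C' : Type u'} [Category.{v'} C']

/-- `Φ` is the base change functor `N ↦ N_K` to the function field `K = k(S)` of a smooth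
projective variety `S` over `k` which is geometrically irreducible of dimension `s`, in the formal
setting: `C` stands for the Chow motives over `k`, `C'` for the Chow motives over `K`, and `Q` is
the motive `h(S)(-s)`, so that `CH_l(N ⊗ Q)` is `CH_{l+s}(N × S)`. -/
structure FunctionField (W : MotivicHomology C F) (Φ : C ⥤ C') (Q : C) where
  /-- restriction to the generic point of `S` -/
  res : ∀ N : C, Φ.obj (N ⊗ Q) ⟶ Φ.obj N
  /-- restriction to the generic point is natural -/
  natural : ∀ {N N' : C} (f : N ⟶ N'), Φ.map (f ▷ Q) ≫ res N' = res N ≫ Φ.map f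
  /-- every cycle on the generic fibre extends: `CH_{l+s}(X × S) → CH_l(X_K)` is surjective -/
  surjective : ∀ {M N : C} (f : Φ.obj M ⟶ Φ.obj N), ∃ g : M ⟶ N ⊗ Q, f = Φ.map g ≫ res N
  /-- the class of `S` in `CH_0(h(S)(-s)) = CH_s(S)` -/
  unit : 𝟙_ C ⟶ Q
  /-- the restriction of `α × [S]` to the generic point is `α_K` -/
  res_unit : ∀ N : C, Φ.map ((ρ_ N).inv ≫ (N ◁ unit)) ≫ res N = 𝟙 (Φ.obj N)
  /-- a zero-cycle of degree one on `S` -/
  point : Q ⟶ 𝟙_ C
  /-- its intersection number with `S` is one -/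
  unit_point : unit ≫ point = 𝟙 (𝟙_ C)
  /-- `H_j(S) = 0` for `j > 2s` -/
  gr_pos : ∀ j : ℤ, 0 < j → W.gr Q j = ⊥
  /-- `H_{2s}(S)` is spanned by the class of `S` -/
  gr_zero : ∀ x ∈ W.gr Q 0, (W.H.map point).hom x = 0 → x = 0

end Pool.Agent.Helper15.FF
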