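import Pool.Agent.Helper15.ABC.ClassNil
import Pool.Agent.Helper15.FF.Defs

/-!
# Morphisms which are zero on the homology of high degree
-/

open CategoryTheory MonoidalCategory Limits TensorProduct
open Pool.Agent.Helper15.Murre Pool.Agent.Helper15.ABC Pool.Agent.Helper58.MAD
open Pool.Agent.Helper88.MADR

universe t w v u

set_option linter.unusedSectionVars false

namespace Pool.Agent.Helper15.FF

section basic

variable {C : Type u} [Category.{v} C] [Preadditive C] [Linear ℚ C]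
  [MonoidalCategory C] [SymmetricCategory C] [RigidCategory C] {F : Type w} [Field F]
variable {W : MotivicHomology C F} {M N M' N' P : C}

/-- `f` is zero on `H_j` for `j ≥ c` -/
def Below (W : MotivicHomology C F) (c : ℤ) (f : M ⟶ N) : Prop :=
  ∀ j : ℤ, c ≤ j → ∀ x ∈ W.gr M j, (W.H.map f).hom x = 0

lemma Below.tensor {f : M ⟶ N} {g : M' ⟶ N'} {c c' : ℤ} (hf : Below W c f)
    (hg : Below W c' g) : Below W (c + c' - 1) (f ⊗ₘ g) := by
  intro n hn z hz
  have key : ∀ z : W.H.obj (M ⊗ M'), (W.H.map (f ⊗ₘ g)).hom z ∈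
      ⨆ j, ⨆ (_ : j ≠ n), W.gr (N ⊗ N') j := by
    intro z
    induction z using W.cross_induction with
    | h1 i j x hx y hy =>
      rw [W.map_tensorHom_cross]
      by_cases hi : c ≤ i
      · rw [hf i hi x hx, W.cross_zero_left]
        exact Submodule.zero_mem _
      by_cases hj : c' ≤ j
      · rw [hg j hj y hy, W.cross_zero_right]
        exact Submodule.zero_mem _
      · have h1 := W.cross_mem (W.map_gr f i x hx) (W.map_gr g j y hy)
        exact Submodule.mem_iSup_of_mem (i + j) (Submodule.mem_iSup_of_mem (by omega) h1)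
    | h2 x y hx hy =>
      rw [map_add]
      exact Submodule.add_mem _ hx hy
  exact (Submodule.disjoint_def.1 ((W.isInternal (N ⊗ N')).submodule_iSupIndep n)) _
    (W.map_gr _ _ _ hz) (key z)

lemma Below.mono {f : M ⟶ N} {c c' : ℤ} (hf : Below W c f) (h : c ≤ c') : Below W c' f :=
  fun j hj x hx => hf j (h.trans hj) x hx

lemma below_p (D : CK W M) (i : ℤ) : Below W (i + 1) (D.p i) := by
  intro j hj x hx
  rw [D.homology i j x hx, if_neg (by omega)]

lemma below_dual {a : M ⟶ M} {i : ℤ}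
    (ha : ∀ j, j ≠ i → ∀ x ∈ W.gr M j, (W.H.map a).hom x = 0) : Below W (-i + 1) (aᘁ) := by
  intro j hj x hx
  exact W.dual_idem a i ha j (by omega) x hx

lemma comp_zero_of_weakNil (hP : WeakNil W P) {e : P ⟶ P} (he : e ≫ e = e) (l : ℤ)
    (h0 : Below W (2 * l) e) (γ : W.CH l P) : γ ≫ e = 0 := by
  obtain ⟨m, hm⟩ := hP e l h0 (γ ≫ e)
  have h1 : ∀ m : ℕ, (γ ≫ e) ≫ pw e m = γ ≫ e := by
    intro m
    induction m with
    | zero => exact Category.comp_id _
    | succ m ih =>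
      change (γ ≫ e) ≫ pw e m ≫ e = _
      rw [← Category.assoc, ih, Category.assoc, he]
  rw [← h1 m, hm]

variable (W) in
/-- the element of `CH_0(P ⊗ Mᘁ)` attached to a morphism `M ⟶ P` -/
noncomputable def nm (f : M ⟶ P) : W.CH 0 (P ⊗ Mᘁ) :=
  W.tateZero.hom ≫ η_ M (Mᘁ) ≫ f ▷ (Mᘁ)

lemma nm_injective [MonoidalPreadditive C] {f : M ⟶ P} (h : nm W f = 0) : f = 0 := by
  have h1 : η_ M (Mᘁ) ≫ f ▷ (Mᘁ) = 0 := by
    have := congrArg (W.tateZero.inv ≫ ·) h
    simpa [nm] using this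
  have h2 : (λ_ M).hom ≫ f = 0 := by
    have h4 : (tensorRightHomEquiv (𝟙_ C) M (Mᘁ) P).symm 0 = 0 := by
      simp [tensorRightHomEquiv]
    have h5 : (tensorRightHomEquiv (𝟙_ C) M (Mᘁ) P).symm (η_ M (Mᘁ) ≫ f ▷ (Mᘁ))
        = (λ_ M).hom ≫ f := by
      simp
    rw [← h5, h1, h4]
  have := congrArg ((λ_ M).inv ≫ ·) h2
  simpa using this

lemma nm_comp (f : M ⟶ P) (a : P ⟶ P) (b : M ⟶ M) :
    nm W f ≫ (a ⊗ₘ (bᘁ)) = nm W (b ≫ f ≫ a) := by
  unfold nm
  simp only [Category.assoc]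
  congr 1
  have h1 : f ▷ (Mᘁ) ≫ (a ⊗ₘ (bᘁ)) = (M ◁ (bᘁ)) ≫ (f ≫ a) ▷ (Mᘁ) := by
    rw [MonoidalCategory.tensorHom_def', comp_whiskerRight, ← Category.assoc, ← Category.assoc,
      whisker_exchange]
  rw [h1, ← Category.assoc, coevaluation_comp_rightAdjointMate, Category.assoc,
    ← comp_whiskerRight]

end basic

end Pool.Agent.Helper15.FF
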