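import Pool.Agent.Helper15.FF.Below
import Pool.Agent.Helper15.ABC.LiftLocal

/-!
# Murre's conjectures over the function field
-/

open CategoryTheory MonoidalCategory Limits TensorProduct
open Pool.Agent.Helper15.Murre Pool.Agent.Helper15.ABC Pool.Agent.Helper58.MAD
open Pool.Agent.Helper88.MADR

universe t w v' u' v u

set_option linter.unusedSectionVars false

namespace Pool.Agent.Helper15.FF

variable {C : Type u} [Category.{v} C] [Preadditive C] [Linear ℚ C]
  [MonoidalCategory C] [SymmetricCategory C] [MonoidalPreadditive C] [MonoidalLinear ℚ C]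
  [RigidCategory C] {F : Type w} [Field F] {W : MotivicHomology C F}
  {ι : Type t} {h : ι → C}
variable {C' : Type u'} [Category.{v'} C'] [Preadditive C'] [Linear ℚ C']
  [MonoidalCategory C'] [SymmetricCategory C'] [RigidCategory C']
  {W' : MotivicHomology C' F} {Φ : C ⥤ C'} {Q : C}

/-- there are no maps from a part of weight `i` to a part of weight `< i` -/
lemma hom_zero (H : ProductClass W h) (hW : ∀ P : C, Generated W h P → WeakNil W P)
    {M P : C} (hM : Generated W h M) (hP : Generated W h P) {a : M ⟶ M} {e : P ⟶ P}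
    (ha : a ≫ a = a) (he : e ≫ e = e) {i c : ℤ}
    (hai : ∀ j, j ≠ i → ∀ x ∈ W.gr M j, (W.H.map a).hom x = 0) (hec : Below W c e) (hic : c ≤ i)
    (g : M ⟶ P) : a ≫ g ≫ e = 0 := by
  apply nm_injective (W := W)
  have h1 : Below W (2 * 0) (e ⊗ₘ (aᘁ)) := (hec.tensor (below_dual hai)).mono (by omega)
  have h2 := comp_zero_of_weakNil (hW _ (H.tensor hP (H.dual' hM))) (e := e ⊗ₘ (aᘁ)) (by
    rw [tensorHom_comp_tensorHom, he, ← comp_rightAdjointMate, ha]) 0 h1 (nm W g)
  rwa [nm_comp] at h2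

section split

variable (G : FunctionField W Φ Q)

/-- the projector onto the complement of the unit in `Q` -/
def FunctionField.rest : Q ⟶ Q := 𝟙 Q - G.point ≫ G.unit

lemma FunctionField.rest_idem : G.rest ≫ G.rest = G.rest := by
  have h1 : (G.point ≫ G.unit) ≫ (G.point ≫ G.unit) = G.point ≫ G.unit := by
    rw [Category.assoc, ← Category.assoc G.unit, G.unit_point, Category.id_comp]
  unfold FunctionField.rest
  rw [Preadditive.sub_comp, Preadditive.comp_sub, Preadditive.comp_sub, h1]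
  simp

lemma FunctionField.rest_point : G.rest ≫ G.point = 0 := by
  unfold FunctionField.rest
  rw [Preadditive.sub_comp, Category.assoc, G.unit_point]
  simp

include G in
lemma FunctionField.below_id : Below W 1 (𝟙 Q) := by
  intro j hj x hx
  rw [G.gr_pos j (by omega)] at hx
  rw [(Submodule.mem_bot F).1 hx, map_zero]

lemma FunctionField.below_rest : Below W 0 G.rest := by
  intro j hj x hx
  rcases eq_or_lt_of_le hj with rfl | hj'
  · apply G.gr_zero _ (W.map_gr _ _ _ hx)
    rw [← W.map_comp_apply, G.rest_point]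
    exact W.map_zero_apply x
  · rw [G.gr_pos j hj'] at hx
    rw [(Submodule.mem_bot F).1 hx, map_zero]

/-- a morphism to `N ⊗ Q` with no component in `N ⊗ rest` restricts to a constant morphism -/
lemma FunctionField.constant {X N : C} (g : X ⟶ N ⊗ Q) (hg : g ≫ (N ◁ G.rest) = 0) :
    Φ.map g ≫ G.res N = Φ.map (g ≫ (N ◁ G.point) ≫ (ρ_ N).hom) := by
  have h1 : g = (g ≫ (N ◁ G.point) ≫ (ρ_ N).hom) ≫ (ρ_ N).inv ≫ (N ◁ G.unit) := by
    have h2 : g ≫ (N ◁ (G.point ≫ G.unit)) = g := by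
      have h3 : N ◁ G.rest + N ◁ (G.point ≫ G.unit) = 𝟙 (N ⊗ Q) := by
        rw [← MonoidalPreadditive.whiskerLeft_add]
        unfold FunctionField.rest
        rw [sub_add_cancel, MonoidalCategory.whiskerLeft_id]
      have h4 := congrArg (g ≫ ·) h3
      simp only [Preadditive.comp_add, hg, zero_add, Category.comp_id] at h4
      exact h4
    conv_lhs => rw [← h2]
    simp
  conv_lhs => rw [h1]
  rw [Φ.map_comp, Category.assoc, G.res_unit, Category.comp_id]

/-- a morphism between pure parts is constant if it has no component in `rest` -/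
lemma FunctionField.exists_constant {X N : C} (f : Φ.obj X ⟶ Φ.obj N) {p : X ⟶ X} {q : N ⟶ N}
    (hp : p ≫ p = p) (hq : q ≫ q = q) (h1 : Φ.map p ≫ f = f) (h2 : f ≫ Φ.map q = f)
    (hz : ∀ g : X ⟶ N ⊗ Q, p ≫ g ≫ (q ⊗ₘ G.rest) = 0) :
    ∃ c : X ⟶ N, f = Φ.map c ∧ p ≫ c = c ∧ c ≫ q = c := by
  obtain ⟨g, hg⟩ := G.surjective f
  have h3 : f = Φ.map (p ≫ g ≫ (q ▷ Q)) ≫ G.res N := by
    simp only [Functor.map_comp, Category.assoc, G.natural]
    rw [← Category.assoc (Φ.map g), ← hg, h2, h1]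
  refine ⟨(p ≫ g ≫ (q ▷ Q)) ≫ (N ◁ G.point) ≫ (ρ_ N).hom, ?_, ?_, ?_⟩
  · conv_lhs => rw [h3]
    apply G.constant
    simp only [Category.assoc]
    have h4 := hz g
    rwa [MonoidalCategory.tensorHom_def] at h4
  · simp only [Category.assoc]
    rw [← Category.assoc p, hp]
  · simp only [Category.assoc]
    have h5 : (N ◁ G.point) ≫ (ρ_ N).hom ≫ q = (q ▷ Q) ≫ (N ◁ G.point) ≫ (ρ_ N).hom := by
      rw [← rightUnitor_naturality, ← whisker_exchange_assoc]
    rw [h5, ← Category.assoc (q ▷ Q), ← comp_whiskerRight, hq]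

end split

section main

variable (H : ProductClass W h) (hW : ∀ P : C, Generated W h P → WeakNil W P)
  (B : BaseChange W W' Φ) (G : FunctionField W Φ Q) (hQ : Generated W h Q)
  {M : C} (hM : Generated W h M) (D : CK W M)

include H hW B G hQ hM

lemma tri : (D.baseChange B).Tri := by
  intro i j hij f
  obtain ⟨g, rfl⟩ := G.surjective f
  change Φ.map (D.p i) ≫ (Φ.map g ≫ G.res M) ≫ Φ.map (D.p j) = 0
  have h1 : D.p i ≫ g ≫ (D.p j ⊗ₘ 𝟙 Q) = 0 :=
    hom_zero H hW hM (H.tensor hM hQ) (D.idem i)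
      (by rw [tensorHom_comp_tensorHom, D.idem, Category.comp_id])
      (fun k hk x hx => by rw [D.homology i k x hx, if_neg hk])
      (((below_p D j).tensor G.below_id).mono (by omega)) (c := i) le_rfl g
  have h2 : Φ.map (D.p i) ≫ (Φ.map g ≫ G.res M) ≫ Φ.map (D.p j) =
      Φ.map (D.p i ≫ g ≫ (D.p j ⊗ₘ 𝟙 Q)) ≫ G.res M := by
    rw [tensorHom_id]
    simp only [Functor.map_comp, Category.assoc, G.natural]
  have := B.additive
  rw [h2, h1, Functor.map_zero, zero_comp]

lemma murreB : (D.baseChange B).MurreB := by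
  have hadd := B.additive
  rw [CK.MurreB_iff]
  intro l i hi α
  obtain ⟨g, hg⟩ := G.surjective ((B.tate l).inv ≫ α)
  have h1 : g ≫ (D.p i ⊗ₘ 𝟙 Q) = 0 :=
    comp_zero_of_weakNil (hW _ (H.tensor hM hQ))
      (by rw [tensorHom_comp_tensorHom, D.idem, Category.comp_id]) l
      (((below_p D i).tensor G.below_id).mono (by omega)) g
  have h2 : ((B.tate l).inv ≫ α) ≫ Φ.map (D.p i) = 0 := by
    rw [hg]
    have h3 : (Φ.map g ≫ G.res M) ≫ Φ.map (D.p i) = Φ.map (g ≫ (D.p i ⊗ₘ 𝟙 Q)) ≫ G.res M := by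
      rw [tensorHom_id]
      simp only [Functor.map_comp, Category.assoc, G.natural]
    rw [h3, h1, Functor.map_zero, zero_comp]
  change α ≫ Φ.map (D.p i) = 0
  have h4 := congrArg ((B.tate l).hom ≫ ·) h2
  simpa using h4

lemma homZero_of_map {X Y : C} {f : X ⟶ Y} (hf : W'.H.map (Φ.map f) = 0) : W.H.map f = 0 := by
  ext x
  apply (B.comp Y).injective
  rw [B.comp_nat, hf]
  change (0 : W'.H.obj _) = B.comp Y 0
  rw [map_zero]

lemma murreD (hD : D.MurreD) : (D.baseChange B).MurreD := by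
  have hadd := B.additive
  rw [CK.MurreD_iff]
  intro l α h1 h2
  change α ≫ Φ.map (D.p (2 * l)) = α at h1
  obtain ⟨c, hc, -, hc2⟩ := G.exists_constant ((B.tate l).inv ≫ α) (p := 𝟙 _)
    (q := D.p (2 * l)) (Category.comp_id _) (D.idem _) (by simp)
    (by rw [Category.assoc, h1]) (fun g => by
      rw [Category.id_comp]
      exact comp_zero_of_weakNil (hW _ (H.tensor hM hQ))
        (by rw [tensorHom_comp_tensorHom, D.idem, G.rest_idem]) l
        (((below_p D (2 * l)).tensor G.below_rest).mono (by omega)) g)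
  have h3 : c = 0 := by
    apply (CK.MurreD_iff D).1 hD l c hc2
    apply homZero_of_map H hW B G hQ hM
    rw [← hc, Functor.map_comp, h2, comp_zero]
  rw [h3, Functor.map_zero] at hc
  have h4 := congrArg ((B.tate l).hom ≫ ·) hc
  simpa using h4

lemma exists_pure (i : ℤ) (f : Φ.obj M ⟶ Φ.obj M) (h1 : (D.baseChange B).p i ≫ f = f)
    (h2 : f ≫ (D.baseChange B).p i = f) : ∃ c : M ⟶ M, f = Φ.map c := by
  obtain ⟨c, hc, -⟩ := G.exists_constant f (p := D.p i) (q := D.p i) (D.idem i) (D.idem i) h1 h2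
    (fun g => hom_zero H hW hM (H.tensor hM hQ) (D.idem i)
      (by rw [tensorHom_comp_tensorHom, D.idem, G.rest_idem])
      (fun k hk x hx => by rw [D.homology i k x hx, if_neg hk])
      (((below_p D i).tensor G.below_rest).mono (by omega)) (c := i) le_rfl g)
  exact ⟨c, hc⟩

/-- homologically trivial endomorphisms over the function field are nilpotent -/
lemma nil (D : CK W M) (hN : ∀ x : M ⟶ M, W.H.map x = 0 → ∃ m : ℕ, pw x m = 0)
    (x : Φ.obj M ⟶ Φ.obj M) (hx : W'.H.map x = 0) : ∃ m : ℕ, pw x m = 0 := by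
  classical
  set D' := D.baseChange B with hD'
  have hadd := B.additive
  have hT : D'.Tri := tri H hW B G hQ hM D
  have h1 : ∀ i, ∃ m : ℕ, D'.p i ≫ pw x m ≫ D'.p i = 0 := by
    intro i
    obtain ⟨c, hc⟩ := exists_pure H hW B G hQ hM D i (D'.p i ≫ x ≫ D'.p i)
      (by rw [← hD', ← Category.assoc, D'.idem])
      (by rw [← hD']; simp only [Category.assoc, D'.idem])
    obtain ⟨m, hm⟩ := hN c (homZero_of_map H hW B G hQ hM (by
      rw [← hc, Functor.map_comp, Functor.map_comp, hx, zero_comp, comp_zero]))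
    refine ⟨m, ?_⟩
    have h2 : ∀ m : ℕ, D'.p i ≫ pw x m ≫ D'.p i = D'.p i ≫ pw (D'.p i ≫ x ≫ D'.p i) m := by
      intro m
      induction m with
      | zero =>
        change D'.p i ≫ 𝟙 _ ≫ D'.p i = D'.p i ≫ 𝟙 _
        rw [Category.id_comp, Category.comp_id, D'.idem]
      | succ m ih =>
        change D'.p i ≫ (pw x m ≫ x) ≫ D'.p i =
          D'.p i ≫ pw (D'.p i ≫ x ≫ D'.p i) m ≫ (D'.p i ≫ x ≫ D'.p i)
        have e : D'.p i ≫ pw x m ≫ D'.p i ≫ x ≫ D'.p i =
            (D'.p i ≫ pw x m ≫ D'.p i) ≫ (D'.p i ≫ x ≫ D'.p i) := by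
          simp only [Category.assoc]
          rw [← Category.assoc (D'.p i) (D'.p i), D'.idem]
        rw [Category.assoc, hT.diag_block, e, ih, Category.assoc]
    rw [h2, hc, ← pw_map, hm, Functor.map_zero, comp_zero]
  choose m hm using h1
  have h3 : ∀ i, D'.p i ≫ pw x (∑ i ∈ D'.s, m i) ≫ D'.p i = 0 := by
    intro i
    by_cases hi : i ∈ D'.s
    · obtain ⟨k, hk⟩ := Nat.exists_eq_add_of_le (Finset.single_le_sum (f := m)
        (fun _ _ => Nat.zero_le _) hi)
      rw [hk, pw_add, Category.assoc, hT.diag_block, ← Category.assoc (pw x (m i)),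
        ← Category.assoc (D'.p i), hm, zero_comp]
    · rw [D'.p_eq_zero hi, zero_comp]
  obtain ⟨k, hk⟩ := hT.nilpotent_of_mem (Retract.refl _) (End.of (pw x (∑ i ∈ D'.s, m i)))
    ((hT.mem_refl _).2 h3)
  refine ⟨(∑ i ∈ D'.s, m i) * k, ?_⟩
  have h4 : ∀ k : ℕ, pw x ((∑ i ∈ D'.s, m i) * k) = pw (pw x (∑ i ∈ D'.s, m i)) k := by
    intro k
    induction k with
    | zero => rfl
    | succ k ih =>
      rw [Nat.mul_succ, pw_add x, ih]
      rfl
  rw [h4, pw_eq_pow_lift, hk]

end main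

end Pool.Agent.Helper15.FF
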