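import Pool.Agent.Helper15.FF.Main

/-!
# Murre's conjectures over function fields
-/

open CategoryTheory MonoidalCategory Limits
open Pool.Agent.Helper15.Murre Pool.Agent.Helper15.ABC Pool.Agent.Helper15.FF

universe t w v' u' v u

namespace Pool.Agent.Results.MP_38de51_ag.FunctionFields

/-- Formal setting: `C`, `C'` and `C₀` stand for the Chow motives over `k`, over the function field
`K = k(S)` of a geometrically irreducible smooth projective variety `S` over `k`, and over a
subfield `K₀` of `K`; `Φ` and `Ψ` are the base change functors from `k` to `K` and from `K₀` to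
`K`; the `h X`, `X : ι`, are the motives of a class of smooth projective varieties over `k` which
is closed under products, and `Q = h(S)(-dim S)` is a direct summand of some `h X (m)` (for
example, `S` belongs to the class).

Suppose that all `X` satisfy (A) and (C). Let `N` be a motive over `K₀` such that `N_K` is a direct
summand of `M_K` for some direct summand `M` of a twist `h X (m)` over `k`. Then `N` satisfies (A)
and (C), and (B) for every Chow-Kunneth decomposition. If all `X` satisfy (D) as well (`d`), then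
`N` satisfies (D) for every Chow-Kunneth decomposition. -/
theorem result {C : Type u} [Category.{v} C] [Preadditive C] [Linear ℚ C] [MonoidalCategory C]
    [SymmetricCategory C] [MonoidalPreadditive C] [MonoidalLinear ℚ C] [RigidCategory C]
    [HasBinaryBiproducts C] [IsIdempotentComplete C]
    {C' : Type u'} [Category.{v'} C'] [Preadditive C'] [Linear ℚ C'] [MonoidalCategory C']
    [SymmetricCategory C'] [RigidCategory C']
    {C₀ : Type u'} [Category.{v'} C₀] [Preadditive C₀] [Linear ℚ C₀] [MonoidalCategory C₀]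
    [SymmetricCategory C₀] [RigidCategory C₀] {F : Type w} [Field F]
    (W : MotivicHomology C F) (W' : MotivicHomology C' F) (W₀ : MotivicHomology C₀ F)
    {ι : Type t} {h : ι → C} (H : ProductClass W h) {Q : C} (hQ : Generated W h Q)
    {Φ : C ⥤ C'} (B : BaseChange W W' Φ) (G : FunctionField W Φ Q)
    {Ψ : C₀ ⥤ C'} (B₀ : BaseChange W₀ W' Ψ) (A₀ : KunnethDescends W' Ψ)
    (d : Prop) (hV : ∀ X : ι, MurreA W (h X) ∧ MurreC W (h X) ∧
      (d → ∃ D : CK W (h X), D.MurreD))
    (N : C₀) (hN : ∃ M : C, Generated W h M ∧ Nonempty (Retract (Ψ.obj N) (Φ.obj M))) :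
    MurreA W₀ N ∧ MurreC W₀ N ∧ ∀ E : CK W₀ N, E.MurreB ∧ (d → E.MurreD) := by
  obtain ⟨M, hM, ⟨R⟩⟩ := hN
  have h0 : ∀ X : ι, MurreA W (h X) ∧ MurreC W (h X) := fun X => ⟨(hV X).1, (hV X).2.1⟩
  have h1 := (H.tfae_abc.out 0 5).1 h0
  obtain ⟨h2, h3, h4, h5⟩ := transfer H B G hQ B₀ A₀ h1 hM R
  refine ⟨h2, h3, fun E => ⟨h4 E, fun hd => h5 (fun D => ?_) E⟩⟩
  have h6 : ∀ X : ι, MurreC W (h X) ∧ ∃ D : CK W (h X), D.MurreD := fun X =>
    ⟨(hV X).2.1, (hV X).2.2 hd⟩
  have h7 := (H.tfae_abcd.out 0 3).1 h6
  exact ((h7 M hM).2.1 D).2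

end Pool.Agent.Results.MP_38de51_ag.FunctionFields
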