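import Pool.Agent.Helper15.FF.Field
import Pool.Agent.Helper15.Murre.Descent

/-!
# Murre's conjectures over subfields of function fields
-/

open CategoryTheory MonoidalCategory Limits TensorProduct
open Pool.Agent.Helper15.Murre Pool.Agent.Helper15.ABC Pool.Agent.Helper58.MAD
open Pool.Agent.Helper88.MADR

universe t w v₀ u₀ v' u' v u

set_option linter.unusedSectionVars false

namespace Pool.Agent.Helper15.FF

section descent

variable {C : Type u} [Category.{v} C] [Preadditive C] [Linear ℚ C]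
  [MonoidalCategory C] [SymmetricCategory C] [RigidCategory C] {F : Type w} [Field F]
variable {C' : Type u'} [Category.{v'} C'] [Preadditive C'] [Linear ℚ C']
  [MonoidalCategory C'] [SymmetricCategory C'] [RigidCategory C']
variable {W : MotivicHomology C F} {W' : MotivicHomology C' F} {Φ : C ⥤ C'}

/-- descent of (B) -/
lemma murreB_descend (B : BaseChange W W' Φ) {N : C} (E : CK W N)
    (h : (E.baseChange B).MurreB) : E.MurreB := by
  have hadd := B.additive
  have hfaith := B.faithful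
  rw [CK.MurreB_iff] at h ⊢
  intro l i hi α
  apply Φ.map_injective
  rw [Functor.map_comp, Functor.map_zero]
  have h1 := h l i hi ((B.tate l).hom ≫ Φ.map α)
  change ((B.tate l).hom ≫ Φ.map α) ≫ Φ.map (E.p i) = 0 at h1
  have h2 := congrArg ((B.tate l).inv ≫ ·) h1
  simpa using h2

/-- descent of (C) -/
lemma murreC_descend (B : BaseChange W W' Φ) {N : C} (h : MurreC W' (Φ.obj N)) :
    MurreC W N := by
  have hadd := B.additive
  have hfaith := B.faithful
  rw [MurreC_iff] at h ⊢
  intro E E' l i j hij α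
  apply Φ.map_injective
  rw [Functor.map_comp, Functor.map_comp, Functor.map_zero]
  have h1 := h (E.baseChange B) (E'.baseChange B) l i j hij ((B.tate l).hom ≫ Φ.map α)
  change ((B.tate l).hom ≫ Φ.map α) ≫ Φ.map (E.p i) ≫ Φ.map (E'.p j) = 0 at h1
  have h2 := congrArg ((B.tate l).inv ≫ ·) h1
  simpa using h2

/-- descent of (D) -/
lemma murreD_descend (B : BaseChange W W' Φ) {N : C} (E : CK W N)
    (h : (E.baseChange B).MurreD) : E.MurreD := by
  have hadd := B.additive
  have hfaith := B.faithful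
  rw [CK.MurreD_iff] at h ⊢
  intro l α h1 h2
  apply Φ.map_injective
  rw [Functor.map_zero]
  have h3 : W'.H.map (Φ.map α) = 0 := by
    ext y
    obtain ⟨x, rfl⟩ := (B.comp _).surjective y
    rw [← B.comp_nat, h2]
    exact map_zero _
  have h4 := h l ((B.tate l).hom ≫ Φ.map α) (by
    change ((B.tate l).hom ≫ Φ.map α) ≫ Φ.map (E.p (2 * l)) = _
    rw [Category.assoc, ← Functor.map_comp, h1]) (by rw [Functor.map_comp, h3, comp_zero])
  have h5 := congrArg ((B.tate l).inv ≫ ·) h4
  simpa using h5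

/-- descent of (A) -/
lemma murreA_descend (B : BaseChange W W' Φ) (A : KunnethDescends W' Φ) {N : C}
    (D : CK W' (Φ.obj N))
    (hnil : ∀ x : Φ.obj N ⟶ Φ.obj N, W'.H.map x = 0 → ∃ m : ℕ, pw x m = 0) : MurreA W N := by
  have hadd := B.additive
  have hfaith := B.faithful
  apply exists_CK_local
  · intro x hx
    obtain ⟨m, hm⟩ := hnil (Φ.map x) (by
      ext y
      obtain ⟨z, rfl⟩ := (B.comp _).surjective y
      rw [← B.comp_nat, hx]
      exact map_zero _)
    refine ⟨m, Φ.map_injective ?_⟩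
    rw [pw_map, hm, Functor.map_zero]
  · intro i
    obtain ⟨y, hy⟩ := A N D i
    refine ⟨y, fun j x hx => ?_⟩
    apply (B.comp N).injective
    rw [B.comp_nat, hy, D.homology i j _ ((B.comp_gr N j x).1 hx)]
    split_ifs
    · rfl
    · rw [map_zero]

/-- nilpotence for direct summands -/
lemma nil_retract {M N : C} (R : Retract N M)
    (hM : ∀ x : M ⟶ M, W.H.map x = 0 → ∃ m : ℕ, pw x m = 0) (x : N ⟶ N)
    (hx : W.H.map x = 0) : ∃ m : ℕ, pw x m = 0 := by
  obtain ⟨m, hm⟩ := hM (R.r ≫ x ≫ R.i) (by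
    rw [Functor.map_comp, Functor.map_comp, hx, zero_comp, comp_zero])
  refine ⟨m, ?_⟩
  have h1 : pw x m ≫ R.i = R.i ≫ pw (R.r ≫ x ≫ R.i) m :=
    pw_comp (by rw [← Category.assoc R.i, R.retract, Category.id_comp]) m
  rw [hm, comp_zero] at h1
  have h2 := congrArg (· ≫ R.r) h1
  simpa using h2

/-- no phantoms from nilpotence -/
lemma noPh_of_nil {M : C} (hM : ∀ x : M ⟶ M, W.H.map x = 0 → ∃ m : ℕ, pw x m = 0)
    (D : CK W M) : D.NoPh := by
  intro i t _ _ ht h0
  obtain ⟨m, hm⟩ := hM t h0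
  have h1 : ∀ m : ℕ, t ≫ pw t m = t := by
    intro m
    induction m with
    | zero => exact Category.comp_id _
    | succ m ih =>
      change t ≫ pw t m ≫ t = t
      rw [← Category.assoc, ih, ht]
  rw [← h1 m, hm, comp_zero]

end descent

variable {C : Type u} [Category.{v} C] [Preadditive C] [Linear ℚ C]
  [MonoidalCategory C] [SymmetricCategory C] [MonoidalPreadditive C] [MonoidalLinear ℚ C]
  [RigidCategory C] [HasBinaryBiproducts C] [IsIdempotentComplete C]
  {F : Type w} [Field F] {W : MotivicHomology C F}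
  {ι : Type t} {h : ι → C}
variable {C' : Type u'} [Category.{v'} C'] [Preadditive C'] [Linear ℚ C']
  [MonoidalCategory C'] [SymmetricCategory C'] [RigidCategory C']
  {W' : MotivicHomology C' F} {Φ : C ⥤ C'} {Q : C}
variable {C₀ : Type u₀} [Category.{v₀} C₀] [Preadditive C₀] [Linear ℚ C₀]
  [MonoidalCategory C₀] [SymmetricCategory C₀] [RigidCategory C₀]
  {W₀ : MotivicHomology C₀ F} {Ψ : C₀ ⥤ C'}

/-- the transfer to subfields of the function field -/
theorem transfer (H : ProductClass W h) (B : BaseChange W W' Φ) (G : FunctionField W Φ Q)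
    (hQ : Generated W h Q) (B₀ : BaseChange W₀ W' Ψ) (A₀ : KunnethDescends W' Ψ)
    (h1 : ∀ M : C, Generated W h M → MurreA W M ∧ (∀ D : CK W M, D.MurreB) ∧ MurreC W M ∧
      KimuraFinite M)
    {M : C} (hM : Generated W h M) {N : C₀} (R : Retract (Ψ.obj N) (Φ.obj M)) :
    MurreA W₀ N ∧ MurreC W₀ N ∧ (∀ E : CK W₀ N, E.MurreB) ∧
      ((∀ D : CK W M, D.MurreD) → ∀ E : CK W₀ N, E.MurreD) := by
  have hW : ∀ P : C, Generated W h P → WeakNil W P := fun P hP =>
    weakNil_of_kimura (h1 P hP).2.2.2 (h1 P hP).1.some ((h1 P hP).2.1 _)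
  obtain ⟨D⟩ := (h1 M hM).1
  have hT := tri H hW B G hQ hM D
  have hnil : ∀ x : Φ.obj M ⟶ Φ.obj M, W'.H.map x = 0 → ∃ m : ℕ, pw x m = 0 := fun x hx =>
    nil H hW B G hQ hM D (fun x hx => nil_of_kimura (h1 M hM).2.2.2 x hx) x hx
  have hph := noPh_of_nil hnil (D.baseChange B)
  have hB := murreB H hW B G hQ hM D
  obtain ⟨D'⟩ := hT.exists_CK R
  have hB' : ∀ E : CK W₀ N, (E.baseChange B₀).MurreB := fun E => hT.murreB hph hB R _
  refine ⟨murreA_descend B₀ A₀ D' (nil_retract R hnil), murreC_descend B₀ (hT.murreC hph R),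
    fun E => murreB_descend B₀ E (hB' E), fun hD E => ?_⟩
  exact murreD_descend B₀ E (hT.murreD hph (murreD H hW B G hQ hM D (hD D)) R _)

end Pool.Agent.Helper15.FF
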